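import Pool.Agent.H34.ZN.Targets2

/-!
Board zn (MP_52e316_nt), row PLG: the theorem of Phragmen and Lindelof with a Gaussian factor.
-/

set_option autoImplicit false

namespace Pool.Agent.H14.ZN

open Complex Filter Asymptotics

/-- the maximum of a power times a Gaussian -/
theorem pow_gauss (K : ℕ) (x : ℝ) (hx : 0 ≤ x) :
    (1 + x) ^ K * Real.exp (-x ^ 2) ≤ (K.factorial : ℝ) * Real.exp 2 := by
  have h1 : (1 + x) ^ K ≤ (K.factorial : ℝ) * Real.exp (1 + x) := by
    have h2 := Real.pow_div_factorial_le_exp (1 + x) (by linarith) K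
    have h3 : (0 : ℝ) < K.factorial := by exact_mod_cast K.factorial_pos
    rw [div_le_iff₀ h3] at h2
    linarith
  calc (1 + x) ^ K * Real.exp (-x ^ 2)
      ≤ ((K.factorial : ℝ) * Real.exp (1 + x)) * Real.exp (-x ^ 2) :=
        mul_le_mul_of_nonneg_right h1 (Real.exp_pos _).le
    _ = (K.factorial : ℝ) * Real.exp (1 + x - x ^ 2) := by
        rw [mul_assoc, ← Real.exp_add]
        congr 2
    _ ≤ _ := by
        refine mul_le_mul_of_nonneg_left (Real.exp_le_exp.2 ?_) (by positivity)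
        nlinarith [sq_nonneg (x - 1 / 2)]

/-- the Gaussian factor -/
theorem gauss_norm (σ1 : ℝ) (s w : ℂ) (hs1 : 1 / 2 ≤ s.re) (hs2 : s.re ≤ σ1)
    (hw1 : 1 / 2 ≤ w.re) (hw2 : w.re ≤ σ1) :
    ‖Complex.exp ((w - s) ^ 2)‖ ≤ Real.exp (σ1 ^ 2) * Real.exp (-|w.im - s.im| ^ 2) := by
  rw [Complex.norm_exp, ← Real.exp_add, sq_abs]
  refine Real.exp_le_exp.2 ?_
  have h1 : ((w - s) ^ 2).re = (w.re - s.re) ^ 2 - (w.im - s.im) ^ 2 := by
    rw [sq, Complex.mul_re, Complex.sub_re, Complex.sub_im]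
    ring
  rw [h1]
  have h2 : (w.re - s.re) ^ 2 ≤ σ1 ^ 2 := by
    apply sq_le_sq'
    · linarith
    · linarith
  linarith

theorem pf_PLG : Pool.Agent.H34.ZN.T_PLG := by
  intro K σ1 hσ
  refine ⟨Real.exp (σ1 ^ 2) * ((K.factorial : ℝ) * Real.exp 2), by positivity, ?_⟩
  intro W B A s hW hB hA hs1 hs2 h1 h2
  obtain ⟨f, hf⟩ : ∃ f : ℂ → ℂ, ∀ w, f w = W w * Complex.exp ((w - s) ^ 2) := ⟨_, fun _ => rfl⟩
  have hfd : Differentiable ℂ f := by
    have h3 : Differentiable ℂ fun w => W w * Complex.exp ((w - s) ^ 2) :=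
      hW.mul ((((differentiable_id (𝕜 := ℂ)).sub_const s).pow 2).cexp)
    exact (funext hf : f = _) ▸ h3
  -- the boundary
  have hbd : ∀ w : ℂ, 1 / 2 ≤ w.re → w.re ≤ σ1 → ‖W w‖ ≤ A * (1 + |w.im - s.im|) ^ K →
      ‖f w‖ ≤ Real.exp (σ1 ^ 2) * ((K.factorial : ℝ) * Real.exp 2) * A := by
    intro w hw1 hw2 h3
    rw [hf, norm_mul]
    have h4 := gauss_norm σ1 s w hs1 hs2 hw1 hw2
    have h5 := pow_gauss K |w.im - s.im| (abs_nonneg _)
    calc ‖W w‖ * ‖Complex.exp ((w - s) ^ 2)‖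
        ≤ (A * (1 + |w.im - s.im|) ^ K) *
          (Real.exp (σ1 ^ 2) * Real.exp (-|w.im - s.im| ^ 2)) :=
          mul_le_mul h3 h4 (norm_nonneg _) (by positivity)
      _ = Real.exp (σ1 ^ 2) * ((1 + |w.im - s.im|) ^ K * Real.exp (-|w.im - s.im| ^ 2)) * A := by
          ring
      _ ≤ _ := by gcongr
  have hB0 : 0 ≤ B := (norm_nonneg _).trans (hB s hs1 hs2)
  have hfin := PhragmenLindelof.vertical_strip (a := 1 / 2) (b := σ1) (f := f)
    (C := Real.exp (σ1 ^ 2) * ((K.factorial : ℝ) * Real.exp 2) * A) (z := s)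
    hfd.diffContOnCl ?_ ?_ ?_ hs1 hs2
  · rw [hf, sub_self, zero_pow two_ne_zero, Complex.exp_zero, mul_one] at hfin
    exact hfin
  · refine ⟨0, div_pos Real.pi_pos (by linarith), 0, ?_⟩
    refine IsBigO.of_bound (B * Real.exp (σ1 ^ 2)) ?_
    refine (eventually_inf_principal.2 (Eventually.of_forall fun w hw => ?_))
    have hw1 : 1 / 2 ≤ w.re := le_of_lt hw.1
    have hw2 : w.re ≤ σ1 := le_of_lt hw.2
    have h4 := gauss_norm σ1 s w hs1 hs2 hw1 hw2
    have h6 : Real.exp (-|w.im - s.im| ^ 2) ≤ 1 := by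
      rw [← Real.exp_zero]
      exact Real.exp_le_exp.2 (by
        have := sq_nonneg |w.im - s.im|
        linarith)
    rw [hf, norm_mul, zero_mul, Real.exp_zero, norm_one, mul_one]
    refine mul_le_mul (hB w hw1 hw2) (h4.trans ?_) (norm_nonneg _) hB0
    exact mul_le_of_le_one_right (Real.exp_pos _).le h6
  · intro w hw
    refine hbd w (le_of_eq hw.symm) (by rw [hw]; linarith) ?_
    have e : w = 1 / 2 + w.im * Complex.I := by
      apply Complex.ext
      · simp [hw]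
      · simp
    have h3 := h1 w.im
    rwa [← e] at h3
  · intro w hw
    refine hbd w (by rw [hw]; linarith) (le_of_eq hw) ?_
    have e : w = σ1 + w.im * Complex.I := by
      apply Complex.ext
      · simp [hw]
      · simp
    have h3 := h2 w.im
    rwa [← e] at h3

end Pool.Agent.H14.ZN
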